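import Mathlib
import Pool.Agent.X142.LI.Count
import Pool.Agent.W472.AC.EMeas2

/-!
# Relations `A(ξ) + B(ξ) t = 0` with integer polynomials `A`, `B`: a zero-one law and a gap principle
-/

set_option autoImplicit false

namespace Pool.Agent.X142.RF

open Finset Polynomial Pool.Agent.W472.AC

/-- all coefficients are at most `H` in absolute value -/
def Bd (P : ℤ[X]) (H : ℝ) : Prop := ∀ i, |(P.coeff i : ℝ)| ≤ H

lemma Bd.mono {P : ℤ[X]} {H H' : ℝ} (h : Bd P H) (hH : H ≤ H') : Bd P H' := fun i => (h i).trans hH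

/-- size of the powers -/
noncomputable def sz (ξ : ℝ) (m : ℕ) : ℝ := ∑ i ∈ range (m + 1), |ξ| ^ i

lemma one_le_sz (ξ : ℝ) (m : ℕ) : 1 ≤ sz ξ m := by
  unfold sz
  rw [sum_range_succ']
  have : 0 ≤ ∑ k ∈ range m, |ξ| ^ (k + 1) := sum_nonneg fun _ _ => by positivity
  rw [pow_zero]
  linarith

lemma abs_aeval_le (ξ : ℝ) (m : ℕ) (P : ℤ[X]) (H : ℝ) (hP : P.natDegree ≤ m) (hH : Bd P H) :
    |aeval ξ P| ≤ sz ξ m * H := by
  rw [aeval_eq_sum_range' (Nat.lt_succ_of_le hP)]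
  refine (abs_sum_le_sum_abs _ _).trans ?_
  unfold sz
  rw [Finset.sum_mul]
  refine sum_le_sum fun i _ => ?_
  rw [zsmul_eq_mul, abs_mul, abs_pow, mul_comm]
  exact mul_le_mul_of_nonneg_left (hH i) (by positivity)

lemma bd_mul (m : ℕ) (P Q : ℤ[X]) (H H' : ℝ) (hP : P.natDegree ≤ m) (h : Bd P H) (h' : Bd Q H') :
    Bd (P * Q) ((m + 1) * (H * H')) := by
  have hH : 0 ≤ H := (abs_nonneg _).trans (h 0)
  have hH' : 0 ≤ H' := (abs_nonneg _).trans (h' 0)
  intro n
  rw [coeff_mul, Finset.Nat.sum_antidiagonal_eq_sum_range_succ (fun i j => P.coeff i * Q.coeff j)]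
  push_cast
  refine (abs_sum_le_sum_abs _ _).trans ?_
  have h1 : ∀ i ∈ range (n + 1), |(P.coeff i : ℝ) * (Q.coeff (n - i) : ℝ)| ≤
      if i ≤ m then H * H' else 0 := by
    intro i _
    split_ifs with hi
    · rw [abs_mul]
      exact mul_le_mul (h i) (h' _) (abs_nonneg _) hH
    · rw [coeff_eq_zero_of_natDegree_lt (by omega)]
      simp
  refine (sum_le_sum h1).trans ?_
  rw [← sum_filter, sum_const, nsmul_eq_mul]
  refine mul_le_mul_of_nonneg_right ?_ (mul_nonneg hH hH')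
  have h2 : ((range (n + 1)).filter fun i => i ≤ m) ⊆ range (m + 1) := by
    intro i hi
    rw [mem_filter] at hi
    rw [mem_range]
    omega
  have h3 := card_le_card h2
  rw [card_range] at h3
  exact_mod_cast h3

lemma bd_sub (P Q : ℤ[X]) (H : ℝ) (h : Bd P H) (h' : Bd Q H) : Bd (P - Q) (2 * H) := by
  intro n
  rw [coeff_sub]
  push_cast
  have := abs_sub (P.coeff n : ℝ) (Q.coeff n : ℝ)
  have h1 := h n
  have h2 := h' n
  linarith

/-- the form `A(ξ) + B(ξ) t` -/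
noncomputable def form (ξ t : ℝ) (A B : ℤ[X]) : ℝ := aeval ξ A + aeval ξ B * t

/-- **Elimination.** If `A B' ≠ A' B`, the two forms are not both small. -/
theorem elim (ξ : ℝ) (m : ℕ) (M c : ℝ) (_hM : 0 ≤ M) (hmeas : MeasP ξ (2 * m) M c) (t : ℝ)
    (A B A' B' : ℤ[X]) (hA : A.natDegree ≤ m) (hB : B.natDegree ≤ m) (hA' : A'.natDegree ≤ m)
    (hB' : B'.natDegree ≤ m) (H H' : ℝ) (hH : 1 ≤ H) (hH' : 1 ≤ H') (bA : Bd A H) (bB : Bd B H)
    (bA' : Bd A' H') (bB' : Bd B' H') (hne : A * B' ≠ A' * B) :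
    c ≤ (2 * (m + 1)) ^ M * sz ξ m * (H * H') ^ M * (H' * |form ξ t A B| + H * |form ξ t A' B'|) := by
  have hm0 : (0 : ℝ) ≤ m := Nat.cast_nonneg _
  have hH0 : 0 < H := by linarith
  have hH0' : 0 < H' := by linarith
  have h1 : A * B' - A' * B ≠ 0 := sub_ne_zero.2 hne
  have hdeg : (A * B' - A' * B).natDegree ≤ 2 * m := by
    refine (natDegree_sub_le _ _).trans (max_le ?_ ?_)
    · exact natDegree_mul_le.trans (by omega)
    · exact natDegree_mul_le.trans (by omega)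
  have hbd : Bd (A * B' - A' * B) (2 * ((m + 1) * (H * H'))) := by
    refine bd_sub _ _ _ (bd_mul m A B' H H' hA bA bB') ?_
    have := bd_mul m A' B H' H hA' bA' bB
    rwa [mul_comm H' H] at this
  have hHH : 1 ≤ H * H' := by nlinarith
  have h2 := hmeas _ h1 hdeg (2 * ((m + 1) * (H * H'))) (by nlinarith) hbd
  have e : aeval ξ (A * B' - A' * B) = aeval ξ B' * form ξ t A B - aeval ξ B * form ξ t A' B' := by
    unfold form
    rw [map_sub, map_mul, map_mul]
    ring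
  have h3 : |aeval ξ (A * B' - A' * B)| ≤ sz ξ m * (H' * |form ξ t A B| + H * |form ξ t A' B'|) := by
    rw [e]
    refine (abs_sub _ _).trans ?_
    rw [abs_mul, abs_mul]
    have a1 := mul_le_mul_of_nonneg_right (abs_aeval_le ξ m B' H' hB' bB') (abs_nonneg (form ξ t A B))
    have a2 := mul_le_mul_of_nonneg_right (abs_aeval_le ξ m B H hB bB) (abs_nonneg (form ξ t A' B'))
    calc _ ≤ sz ξ m * H' * |form ξ t A B| + sz ξ m * H * |form ξ t A' B'| := add_le_add a1 a2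
      _ = _ := by ring
  calc c ≤ (2 * ((m + 1) * (H * H'))) ^ M * |aeval ξ (A * B' - A' * B)| := h2
    _ ≤ (2 * ((m + 1) * (H * H'))) ^ M * (sz ξ m * (H' * |form ξ t A B| + H * |form ξ t A' B'|)) :=
        mul_le_mul_of_nonneg_left h3 (by positivity)
    _ = _ := by
        have e2 : (2 * (((m : ℝ) + 1) * (H * H'))) ^ M = (2 * (m + 1)) ^ M * (H * H') ^ M := by
          rw [← Real.mul_rpow (by positivity) (by positivity)]
          congr 1
          ring
        rw [e2]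
        ring

/-- some nonzero pair of height `≤ H` with `|A(ξ) + B(ξ) t| ≤ H^(-τ)` -/
def Sol (ξ t : ℝ) (m : ℕ) (τ H : ℝ) (A B : ℤ[X]) : Prop :=
  (A ≠ 0 ∨ B ≠ 0) ∧ A.natDegree ≤ m ∧ B.natDegree ≤ m ∧ Bd A H ∧ Bd B H ∧ |form ξ t A B| ≤ H ^ (-τ)

/-- two solutions at comparable heights are proportional -/
theorem prop_of_sol (ξ : ℝ) (m : ℕ) (M c : ℝ) (hM : 0 ≤ M) (hc : 0 < c)
    (hmeas : MeasP ξ (2 * m) M c) (τ θ : ℝ) (hθ : 1 ≤ θ) (hτ : (1 + θ) * M + θ < τ) :
    ∃ H₁ : ℝ, 1 ≤ H₁ ∧ ∀ t H H' : ℝ, H₁ ≤ H → H ≤ H' → H' ≤ H ^ θ →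
      ∀ A B A' B' : ℤ[X], Sol ξ t m τ H A B → Sol ξ t m τ H' A' B' → A * B' = A' * B := by
  have hm0 : (0 : ℝ) ≤ m := Nat.cast_nonneg _
  have hs := one_le_sz ξ m
  obtain ⟨K, hK⟩ : ∃ K : ℝ, K = (2 * (m + 1)) ^ M * sz ξ m * 2 := ⟨_, rfl⟩
  have hK0 : 0 < K := by rw [hK]; positivity
  have hτ0 : 0 ≤ τ := by
    have : 0 ≤ (1 + θ) * M := by positivity
    linarith
  have h1 := tendsto_rpow_atTop (show 0 < τ - ((1 + θ) * M + θ) by linarith)
  have h2 := h1.eventually_gt_atTop (K / c)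
  obtain ⟨a, ha⟩ := Filter.eventually_atTop.1 h2
  refine ⟨max a 1, le_max_right _ _, ?_⟩
  intro t H H' hH hHH' hH' A B A' B' hs1 hs2
  obtain ⟨-, dA, dB, bA, bB, hf⟩ := hs1
  obtain ⟨-, dA', dB', bA', bB', hf'⟩ := hs2
  have hH1 : 1 ≤ H := (le_max_right _ _).trans hH
  have hH0 : 0 < H := by linarith
  have hH1' : 1 ≤ H' := hH1.trans hHH'
  have hH0' : 0 < H' := by linarith
  by_contra hne
  have h3 := elim ξ m M c hM hmeas t A B A' B' dA dB dA' dB' H H' hH1 hH1' bA bB bA' bB' hne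
  have h4 : H' * |form ξ t A B| + H * |form ξ t A' B'| ≤ 2 * (H ^ θ * H ^ (-τ)) := by
    have a1 : H' * |form ξ t A B| ≤ H ^ θ * H ^ (-τ) :=
      mul_le_mul hH' hf (abs_nonneg _) (by positivity)
    have a2 : H * |form ξ t A' B'| ≤ H ^ θ * H ^ (-τ) := by
      refine mul_le_mul (hHH'.trans hH') (hf'.trans ?_) (abs_nonneg _) (by positivity)
      exact Real.rpow_le_rpow_of_nonpos hH0 hHH' (by linarith)
    linarith
  have h5 : (H * H') ^ M ≤ H ^ ((1 + θ) * M) := by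
    calc (H * H') ^ M ≤ (H * H ^ θ) ^ M :=
          Real.rpow_le_rpow (by positivity) (mul_le_mul_of_nonneg_left hH' hH0.le) hM
      _ = _ := by
          rw [← Real.rpow_one_add' hH0.le (by linarith), ← Real.rpow_mul hH0.le]
  have h6 : c ≤ K * H ^ (((1 + θ) * M + θ) - τ) := by
    calc c ≤ (2 * (m + 1)) ^ M * sz ξ m * (H * H') ^ M *
          (H' * |form ξ t A B| + H * |form ξ t A' B'|) := h3
      _ ≤ (2 * (m + 1)) ^ M * sz ξ m * H ^ ((1 + θ) * M) * (2 * (H ^ θ * H ^ (-τ))) := by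
          gcongr
      _ = _ := by
          have e : H ^ (((1 + θ) * M + θ) - τ) = H ^ ((1 + θ) * M) * (H ^ θ * H ^ (-τ)) := by
            rw [← Real.rpow_add hH0, ← Real.rpow_add hH0]
            congr 1
            ring
          rw [e, hK]
          ring
  have h7 := ha H ((le_max_left _ _).trans hH)
  rw [div_lt_iff₀ hc] at h7
  have e : H ^ (((1 + θ) * M + θ) - τ) * H ^ (τ - ((1 + θ) * M + θ)) = 1 := by
    rw [← Real.rpow_add hH0, sub_add_sub_cancel, sub_self, Real.rpow_zero]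
  have h8 : 0 < H ^ (((1 + θ) * M + θ) - τ) := by positivity
  have h9 : K * H ^ (((1 + θ) * M + θ) - τ) < c := by
    calc K * H ^ (((1 + θ) * M + θ) - τ) <
        (H ^ (τ - ((1 + θ) * M + θ)) * c) * H ^ (((1 + θ) * M + θ) - τ) :=
          mul_lt_mul_of_pos_right h7 h8
      _ = (H ^ (((1 + θ) * M + θ) - τ) * H ^ (τ - ((1 + θ) * M + θ))) * c := by ring
      _ = c := by rw [e, one_mul]
  linarith

/-- transitivity of proportionality -/
lemma prop_trans (A B A' B' A'' B'' : ℤ[X]) (h' : A' ≠ 0 ∨ B' ≠ 0) (h1 : A * B' = A' * B)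
    (h2 : A' * B'' = A'' * B') : A * B'' = A'' * B := by
  rcases h' with h | h
  · have e : A' * (A * B'') = A' * (A'' * B) := by
      calc A' * (A * B'') = A * (A' * B'') := by ring
        _ = A * (A'' * B') := by rw [h2]
        _ = A'' * (A * B') := by ring
        _ = A'' * (A' * B) := by rw [h1]
        _ = _ := by ring
    exact mul_left_cancel₀ h e
  · have e : B' * (A * B'') = B' * (A'' * B) := by
      calc B' * (A * B'') = (A * B') * B'' := by ring
        _ = (A' * B) * B'' := by rw [h1]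
        _ = (A' * B'') * B := by ring
        _ = (A'' * B') * B := by rw [h2]
        _ = _ := by ring
    exact mul_left_cancel₀ h e

/-- **Zero-one law.** -/
theorem zero_one (ξ : ℝ) (m : ℕ) (M c : ℝ) (hM : 0 ≤ M) (hc : 0 < c)
    (hmeas : MeasP ξ (2 * m) M c) (t τ : ℝ) (hτ : 2 * M + 1 < τ)
    (h : ∃ H₀ : ℝ, ∀ H : ℝ, H₀ ≤ H → ∃ A B : ℤ[X], Sol ξ t m τ H A B) :
    ∃ A B : ℤ[X], A.natDegree ≤ m ∧ B.natDegree ≤ m ∧ B ≠ 0 ∧ form ξ t A B = 0 := by
  by_contra hcon
  push Not at hcon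
  obtain ⟨H₀, h⟩ := h
  obtain ⟨θ, hθ1, hθ⟩ : ∃ θ : ℝ, 1 < θ ∧ (1 + θ) * M + θ < τ := by
    refine ⟨1 + (τ - (2 * M + 1)) / (2 * (M + 1)), ?_, ?_⟩
    · have : 0 < (τ - (2 * M + 1)) / (2 * (M + 1)) := by
        apply div_pos <;> linarith
      linarith
    · have e : (1 + (1 + (τ - (2 * M + 1)) / (2 * (M + 1)))) * M +
          (1 + (τ - (2 * M + 1)) / (2 * (M + 1))) = 2 * M + 1 + (τ - (2 * M + 1)) / 2 := by
        have : M + 1 ≠ 0 := by linarith
        field_simp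
        ring
      rw [e]
      linarith
  obtain ⟨H₁, hH₁, hprop⟩ := prop_of_sol ξ m M c hM hc hmeas τ θ hθ1.le hθ
  obtain ⟨b, hb⟩ : ∃ b : ℝ, b = max (max H₀ H₁) 2 := ⟨_, rfl⟩
  have hb0 : H₀ ≤ b := by rw [hb]; exact (le_max_left _ _).trans (le_max_left _ _)
  have hb1 : H₁ ≤ b := by rw [hb]; exact (le_max_right _ _).trans (le_max_left _ _)
  have hb2 : 2 ≤ b := by rw [hb]; exact le_max_right _ _
  have hb00 : 0 < b := by linarith
  -- heights `b ^ (θ ^ k)`
  obtain ⟨F, hF⟩ : ∃ F : ℕ → ℝ, F = fun k => b ^ (θ ^ k) := ⟨_, rfl⟩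
  have hF0 : F 0 = b := by rw [hF]; simp
  have hFs : ∀ k, F (k + 1) = F k ^ θ := by
    intro k
    rw [hF]
    simp only
    rw [← Real.rpow_mul hb00.le, pow_succ]
  have hFge : ∀ k, b ≤ F k := by
    intro k
    rw [hF]
    simp only
    calc b = b ^ (1 : ℝ) := (Real.rpow_one b).symm
      _ ≤ b ^ (θ ^ k) := Real.rpow_le_rpow_of_exponent_le (by linarith) (one_le_pow₀ hθ1.le)
  have hFmono : ∀ k, F k ≤ F (k + 1) := by
    intro k
    rw [hFs]
    have h1 : 1 ≤ F k := by linarith [hFge k]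
    calc F k = F k ^ (1 : ℝ) := (Real.rpow_one _).symm
      _ ≤ F k ^ θ := Real.rpow_le_rpow_of_exponent_le h1 hθ1.le
  have hsol : ∀ k, ∃ P : ℤ[X] × ℤ[X], Sol ξ t m τ (F k) P.1 P.2 := by
    intro k
    obtain ⟨A, B, hAB⟩ := h (F k) (hb0.trans (hFge k))
    exact ⟨(A, B), hAB⟩
  choose P hP using hsol
  have hall : ∀ k, (P 0).1 * (P k).2 = (P k).1 * (P 0).2 := by
    intro k
    induction k with
    | zero => rfl
    | succ k ih =>
      refine prop_trans _ _ (P k).1 (P k).2 _ _ (hP k).1 ih ?_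
      exact hprop t (F k) (F (k + 1)) (hb1.trans (hFge k)) (hFmono k) (hFs k).le _ _ _ _ (hP k)
        (hP (k + 1))
  have hFtop : Filter.Tendsto F Filter.atTop Filter.atTop := by
    rw [hF]
    have h1 : Filter.Tendsto (fun k : ℕ => θ ^ k) Filter.atTop Filter.atTop :=
      tendsto_pow_atTop_atTop_of_one_lt hθ1
    exact (tendsto_rpow_atTop_of_base_gt_one b (by linarith)).comp h1
  -- lower bound for nonzero polynomials
  have hlow : ∀ k, ∀ Q : ℤ[X], Q ≠ 0 → Q.natDegree ≤ m → Bd Q (F k) → c ≤ F k ^ M * |aeval ξ Q| :=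
    fun k Q hQ hd hb' => hmeas Q hQ (by omega) (F k) (by linarith [hFge k]) hb'
  have hMτ : 0 < τ - M := by linarith
  have hdecay : Filter.Tendsto (fun k => F k ^ M * F k ^ (-τ)) Filter.atTop (nhds 0) := by
    have h1 := (tendsto_rpow_neg_atTop hMτ).comp hFtop
    refine h1.congr fun k => ?_
    have : 0 < F k := by linarith [hFge k]
    rw [Function.comp, ← Real.rpow_add this]
    congr 1
    ring
  have hfin : ∀ E : ℝ, ¬ ∀ k, c ≤ E * (F k ^ M * F k ^ (-τ)) := by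
    intro E hE
    have h1 := hdecay.const_mul E
    rw [mul_zero] at h1
    have := ge_of_tendsto' h1 hE
    linarith
  by_cases hB0 : (P 0).2 = 0
  · -- all `B_k` vanish
    have hA0 : (P 0).1 ≠ 0 := by
      rcases (hP 0).1 with h1 | h1
      · exact h1
      · exact absurd hB0 h1
    have hBk : ∀ k, (P k).2 = 0 := by
      intro k
      have h1 := hall k
      rw [hB0, mul_zero] at h1
      rcases mul_eq_zero.1 h1 with h2 | h2
      · exact absurd h2 hA0
      · exact h2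
    apply hfin 1
    intro k
    rw [one_mul]
    obtain ⟨h1, h2, -, h3, -, h4⟩ := hP k
    have hAk : (P k).1 ≠ 0 := by
      rcases h1 with h1 | h1
      · exact h1
      · exact absurd (hBk k) h1
    have e : form ξ t (P k).1 (P k).2 = aeval ξ (P k).1 := by
      unfold form
      rw [hBk k]
      simp
    rw [e] at h4
    have hFk : 0 < F k := by linarith [hFge k]
    exact (hlow k _ hAk h2 h3).trans (mul_le_mul_of_nonneg_left h4 (by positivity))
  · -- all `B_k` are nonzero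
    have hBk : ∀ k, (P k).2 ≠ 0 := by
      intro k hk
      have h1 := hall k
      rw [hk, mul_zero] at h1
      rcases (hP k).1 with h2 | h2
      · rcases mul_eq_zero.1 h1.symm with h3 | h3
        · exact h2 h3
        · exact hB0 h3
      · exact h2 hk
    have hL0 : form ξ t (P 0).1 (P 0).2 ≠ 0 := hcon _ _ (hP 0).2.1 (hP 0).2.2.1 hB0
    obtain ⟨L, hL⟩ : ∃ L : ℝ, L = |form ξ t (P 0).1 (P 0).2| := ⟨_, rfl⟩
    have hLp : 0 < L := by rw [hL]; exact abs_pos.2 hL0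
    apply hfin (|aeval ξ (P 0).2| / L)
    intro k
    obtain ⟨-, -, h2, -, h3, h4⟩ := hP k
    have e : aeval ξ (P 0).2 * form ξ t (P k).1 (P k).2 =
        aeval ξ (P k).2 * form ξ t (P 0).1 (P 0).2 := by
      have h5 := congrArg (aeval ξ) (hall k)
      rw [map_mul, map_mul] at h5
      unfold form
      linear_combination -h5
    have e2 : |aeval ξ (P k).2| = |aeval ξ (P 0).2| * |form ξ t (P k).1 (P k).2| / L := by
      rw [eq_div_iff hLp.ne', hL, ← abs_mul, ← abs_mul, e]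
    have hFk : 0 < F k := by linarith [hFge k]
    have h6 := hlow k _ (hBk k) h2 h3
    rw [e2] at h6
    calc c ≤ F k ^ M * (|aeval ξ (P 0).2| * |form ξ t (P k).1 (P k).2| / L) := h6
      _ ≤ F k ^ M * (|aeval ξ (P 0).2| * F k ^ (-τ) / L) := by gcongr
      _ = _ := by ring

end Pool.Agent.X142.RF
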