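import Mathlib
import Pool.Agent.X142.RF.Basic

/-!
# Relations `A(ξ) + B(ξ) t` that are nearly zero: a gap principle and a count
-/

set_option autoImplicit false

namespace Pool.Agent.X142.RF

open Finset Polynomial Pool.Agent.W472.AC

/-- the height of an integer polynomial -/
noncomputable def ht (P : ℤ[X]) : ℕ := P.support.sup fun i => (P.coeff i).natAbs

lemma bd_ht (P : ℤ[X]) : Bd P (ht P) := by
  intro i
  have h1 : (P.coeff i).natAbs ≤ ht P := by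
    by_cases h : P.coeff i = 0
    · rw [h]; simp
    · exact Finset.le_sup (f := fun i => (P.coeff i).natAbs) (mem_support_iff.2 h)
  rw [← Int.cast_abs, Int.abs_eq_natAbs]
  exact_mod_cast h1

/-- the near relations of exponent `w` -/
def Near (ξ t : ℝ) (m : ℕ) (w : ℝ) : Set (ℤ[X] × ℤ[X]) :=
  {p | IsRelPrime p.1 p.2 ∧ 0 < p.2.leadingCoeff ∧ p.1.natDegree ≤ m ∧ p.2.natDegree ≤ m ∧
    |form ξ t p.1 p.2| ≤ ((max (ht p.1) (ht p.2) : ℕ) : ℝ) ^ (-w)}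

lemma eq_of_prop (A B A' B' : ℤ[X]) (h : IsRelPrime A B) (h' : IsRelPrime A' B')
    (hB : 0 < B.leadingCoeff) (hB' : 0 < B'.leadingCoeff) (e : A * B' = A' * B) : A = A' ∧ B = B' := by
  have d1 : B ∣ B' := h.symm.dvd_of_dvd_mul_left (z := B') (by rw [e]; exact dvd_mul_left _ _)
  have d2 : B' ∣ B := h'.symm.dvd_of_dvd_mul_left (z := B) (by rw [← e]; exact dvd_mul_left _ _)
  obtain ⟨u, hu⟩ := associated_of_dvd_dvd d1 d2
  have hB0 : B ≠ 0 := by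
    intro h0
    rw [h0, leadingCoeff_zero] at hB
    exact lt_irrefl _ hB
  have hu1 : (u : ℤ[X]) = 1 := by
    obtain ⟨r, hr, hr2⟩ := Polynomial.isUnit_iff.1 u.isUnit
    rw [← hr2] at hu ⊢
    have h3 : B'.leadingCoeff = B.leadingCoeff * r := by
      rw [← hu, leadingCoeff_mul, leadingCoeff_C]
    rcases Int.isUnit_iff.1 hr with h4 | h4
    · rw [h4]; simp
    · exfalso
      rw [h4] at h3
      linarith
  have hBB : B = B' := by rw [← hu, hu1, mul_one]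
  refine ⟨?_, hBB⟩
  rw [← hBB] at e
  exact mul_right_cancel₀ hB0 e

lemma one_le_ht (P : ℤ[X]) (hP : P ≠ 0) : 1 ≤ ht P := by
  have h1 : P.leadingCoeff ≠ 0 := leadingCoeff_ne_zero.2 hP
  have h2 : (P.coeff P.natDegree).natAbs ≤ ht P :=
    Finset.le_sup (f := fun i => (P.coeff i).natAbs) (natDegree_mem_support_of_nonzero hP)
  exact (Int.natAbs_pos.2 h1).trans_le h2

/-- **Gap principle.** -/
theorem gap (ξ : ℝ) (m : ℕ) (M c : ℝ) (hM : 0 ≤ M) (hc : 0 < c) (hmeas : MeasP ξ (2 * m) M c)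
    (w : ℝ) (hw : 0 ≤ w) :
    ∃ C : ℝ, 0 < C ∧ ∀ t : ℝ, ∀ p ∈ Near ξ t m w, ∀ p' ∈ Near ξ t m w, p ≠ p' →
      ((max (ht p.1) (ht p.2) : ℕ) : ℝ) ≤ ((max (ht p'.1) (ht p'.2) : ℕ) : ℝ) →
      C * ((max (ht p.1) (ht p.2) : ℕ) : ℝ) ^ ((w - M) / (M + 1)) ≤
        ((max (ht p'.1) (ht p'.2) : ℕ) : ℝ) := by
  have hm0 : (0 : ℝ) ≤ m := Nat.cast_nonneg _
  have hs := one_le_sz ξ m
  obtain ⟨K, hK⟩ : ∃ K : ℝ, K = (2 * (m + 1)) ^ M * sz ξ m * 2 := ⟨_, rfl⟩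
  have hK0 : 0 < K := by rw [hK]; positivity
  refine ⟨(c / K) ^ (1 / (M + 1)), by positivity, ?_⟩
  rintro t ⟨A, B⟩ ⟨hr, hl, dA, dB, hf⟩ ⟨A', B'⟩ ⟨hr', hl', dA', dB', hf'⟩ hne hle
  simp only at hr hl dA dB hf hr' hl' dA' dB' hf' hle ⊢
  obtain ⟨H, hH⟩ : ∃ H : ℝ, H = ((max (ht A) (ht B) : ℕ) : ℝ) := ⟨_, rfl⟩
  obtain ⟨H', hH'⟩ : ∃ H' : ℝ, H' = ((max (ht A') (ht B') : ℕ) : ℝ) := ⟨_, rfl⟩
  rw [← hH] at hf hle ⊢
  rw [← hH'] at hf' hle ⊢
  have hB0 : B ≠ 0 := by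
    intro h0
    rw [h0, leadingCoeff_zero] at hl
    exact lt_irrefl _ hl
  have hH1 : 1 ≤ H := by
    rw [hH]
    exact_mod_cast (one_le_ht B hB0).trans (le_max_right _ _)
  have hH0 : 0 < H := by linarith
  have hH1' : 1 ≤ H' := hH1.trans hle
  have hH0' : 0 < H' := by linarith
  have bA : Bd A H := (bd_ht A).mono (by rw [hH]; exact_mod_cast le_max_left _ _)
  have bB : Bd B H := (bd_ht B).mono (by rw [hH]; exact_mod_cast le_max_right _ _)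
  have bA' : Bd A' H' := (bd_ht A').mono (by rw [hH']; exact_mod_cast le_max_left _ _)
  have bB' : Bd B' H' := (bd_ht B').mono (by rw [hH']; exact_mod_cast le_max_right _ _)
  have hne' : A * B' ≠ A' * B := by
    intro h
    obtain ⟨e1, e2⟩ := eq_of_prop A B A' B' hr hr' hl hl' h
    exact hne (by rw [e1, e2])
  have h3 := elim ξ m M c hM hmeas t A B A' B' dA dB dA' dB' H H' hH1 hH1' bA bB bA' bB' hne'
  have h4 : H' * |form ξ t A B| + H * |form ξ t A' B'| ≤ 2 * (H' * H ^ (-w)) := by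
    have a1 : H' * |form ξ t A B| ≤ H' * H ^ (-w) := mul_le_mul_of_nonneg_left hf hH0'.le
    have a2 : H * |form ξ t A' B'| ≤ H' * H ^ (-w) := by
      refine mul_le_mul hle (hf'.trans ?_) (abs_nonneg _) hH0'.le
      exact Real.rpow_le_rpow_of_nonpos hH0 hle (by linarith)
    linarith
  have h5 : c ≤ K * (H' ^ (M + 1) * H ^ (M - w)) := by
    calc c ≤ (2 * (m + 1)) ^ M * sz ξ m * (H * H') ^ M *
          (H' * |form ξ t A B| + H * |form ξ t A' B'|) := h3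
      _ ≤ (2 * (m + 1)) ^ M * sz ξ m * (H * H') ^ M * (2 * (H' * H ^ (-w))) := by gcongr
      _ = _ := by
          rw [Real.mul_rpow hH0.le hH0'.le, Real.rpow_add_one hH0'.ne', Real.rpow_sub hH0,
            Real.rpow_neg hH0.le, hK]
          ring
  have h6 : c / K * H ^ (w - M) ≤ H' ^ (M + 1) := by
    have e : H ^ (M - w) * H ^ (w - M) = 1 := by
      rw [← Real.rpow_add hH0, sub_add_sub_cancel, sub_self, Real.rpow_zero]
    rw [div_mul_eq_mul_div, div_le_iff₀ hK0]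
    have hp : 0 < H ^ (w - M) := by positivity
    calc c * H ^ (w - M) ≤ K * (H' ^ (M + 1) * H ^ (M - w)) * H ^ (w - M) :=
          mul_le_mul_of_nonneg_right h5 hp.le
      _ = K * H' ^ (M + 1) * (H ^ (M - w) * H ^ (w - M)) := by ring
      _ = _ := by rw [e]; ring
  have h7 := Real.rpow_le_rpow (by positivity) h6 (show 0 ≤ 1 / (M + 1) by positivity)
  rw [← Real.rpow_mul hH0'.le, mul_one_div_cancel (by positivity), Real.rpow_one,
    Real.mul_rpow (by positivity) (by positivity), ← Real.rpow_mul hH0.le, mul_one_div] at h7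
  exact h7

/-- **Count.** -/
theorem sparse (ξ : ℝ) (m : ℕ) (M c : ℝ) (hM : 0 ≤ M) (hc : 0 < c) (hmeas : MeasP ξ (2 * m) M c)
    (w ρ : ℝ) (hw : 0 ≤ w) (hρ : 1 < ρ) (hρw : ρ < (w - M) / (M + 1)) :
    ∃ H₀ : ℝ, 3 ≤ H₀ ∧ ∀ t X : ℝ, 3 ≤ X →
      {p ∈ Near ξ t m w | H₀ ≤ ((max (ht p.1) (ht p.2) : ℕ) : ℝ) ∧
        ((max (ht p.1) (ht p.2) : ℕ) : ℝ) ≤ X}.Finite ∧
      ({p ∈ Near ξ t m w | H₀ ≤ ((max (ht p.1) (ht p.2) : ℕ) : ℝ) ∧
        ((max (ht p.1) (ht p.2) : ℕ) : ℝ) ≤ X}.ncard : ℝ) ≤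
        Real.log (Real.log X) / Real.log ρ + 1 := by
  obtain ⟨C, hC, hgap⟩ := gap ξ m M c hM hc hmeas w hw
  obtain ⟨H₀, hH3, hH⟩ := Pool.Agent.X142.LI.count_unif C _ ρ hC hρ hρw
  refine ⟨H₀, hH3, fun t X hX => hH (Near ξ t m w) (fun p => ((max (ht p.1) (ht p.2) : ℕ) : ℝ)) ?_ X hX⟩
  intro p hp p' hp' hne hle _
  exact hgap t p hp p' hp' hne hle

end Pool.Agent.X142.RF
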