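import Mathlib
import Pool.Agent.X142.RF.Sparse
import Pool.Agent.TH456.TM.Inst

/-!
# The zero-one law and the count for numbers with a transcendence measure of polynomial type
-/

set_option autoImplicit false

namespace Pool.Agent.X142.RF

open Finset Polynomial Pool.Agent.W472.AC Pool.Agent.TH456.TM

lemma measP_of_measT (ξ : ℝ) (h : MeasT (ξ : ℂ)) (r : ℕ) :
    ∃ M c : ℝ, 0 ≤ M ∧ 0 < c ∧ MeasP ξ r M c := by
  obtain ⟨M, c, hM, hc, h1⟩ := h r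
  refine ⟨M, c, hM, hc, fun P hP hd H hH hb => ?_⟩
  have h2 := h1 P hP hd H hH hb
  have h3 : aeval (ξ : ℂ) P = ((aeval ξ P : ℝ) : ℂ) := by
    have := Polynomial.aeval_algebraMap_apply ℂ ξ P
    rw [Complex.coe_algebraMap] at this
    exact this
  rw [h3, Complex.norm_real, Real.norm_eq_abs] at h2
  exact h2

/-- for all large `H` there is a nonzero pair of degree `≤ m`, height `≤ H` and value `≤ H ^ (-τ)` -/
def Unif (ξ : ℝ) (m : ℕ) (t τ : ℝ) : Prop :=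
  ∃ H₀ : ℝ, ∀ H : ℝ, H₀ ≤ H → ∃ A B : ℤ[X], Sol ξ t m τ H A B

lemma unif_of_exact (ξ : ℝ) (m : ℕ) (t σ : ℝ) (A B : ℤ[X]) (hA : A.natDegree ≤ m)
    (hB : B.natDegree ≤ m) (hB0 : B ≠ 0) (h : form ξ t A B = 0) : Unif ξ m t σ := by
  refine ⟨max (max (ht A) (ht B)) 0, fun H hH => ⟨A, B, Or.inr hB0, hA, hB, ?_, ?_, ?_⟩⟩
  · exact (bd_ht A).mono (((le_max_left _ _).trans (le_max_left _ _)).trans hH)
  · exact (bd_ht B).mono (((le_max_right _ _).trans (le_max_left _ _)).trans hH)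
  · rw [h, abs_zero]
    exact Real.rpow_nonneg ((le_max_right _ _).trans hH) _

theorem main (ξ : ℝ) (hξ : MeasT (ξ : ℂ)) (m : ℕ) : ∃ κ : ℝ, 0 < κ ∧
    (∀ t τ : ℝ, κ < τ → [∃ A B : ℤ[X], A.natDegree ≤ m ∧ B.natDegree ≤ m ∧ B ≠ 0 ∧ form ξ t A B = 0,
      Unif ξ m t τ, ∀ σ : ℝ, Unif ξ m t σ].TFAE) ∧
    (∀ w ρ : ℝ, 1 < ρ → ρ < w / κ → ∃ H₀ : ℝ, ∀ t X : ℝ, 3 ≤ X →
      {p ∈ Near ξ t m w | H₀ ≤ ((max (ht p.1) (ht p.2) : ℕ) : ℝ) ∧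
        ((max (ht p.1) (ht p.2) : ℕ) : ℝ) ≤ X}.Finite ∧
      ({p ∈ Near ξ t m w | H₀ ≤ ((max (ht p.1) (ht p.2) : ℕ) : ℝ) ∧
        ((max (ht p.1) (ht p.2) : ℕ) : ℝ) ≤ X}.ncard : ℝ) ≤
        Real.log (Real.log X) / Real.log ρ + 1) := by
  obtain ⟨M, c, hM, hc, hmeas⟩ := measP_of_measT ξ hξ (2 * m)
  refine ⟨2 * M + 1, by linarith, fun t τ hτ => ?_, fun w ρ hρ hρw => ?_⟩
  · tfae_have 1 → 3 := by
      rintro ⟨A, B, hA, hB, hB0, h⟩ σ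
      exact unif_of_exact ξ m t σ A B hA hB hB0 h
    tfae_have 3 → 2 := fun h => h τ
    tfae_have 2 → 1 := fun h => zero_one ξ m M c hM hc hmeas t τ hτ h
    tfae_finish
  · rw [lt_div_iff₀ (by linarith)] at hρw
    have hw : 2 * M + 1 < w := by nlinarith
    obtain ⟨H₀, -, h⟩ := sparse ξ m M c hM hc hmeas w ρ (by linarith) hρ (by
      rw [lt_div_iff₀ (by linarith)]
      nlinarith)
    exact ⟨H₀, h⟩

end Pool.Agent.X142.RF
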